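import Pool.Agent.Lib.MP_097535_lc.FULL.Asm

/-!
# Podewski's conjecture: minimal fields of characteristic zero are algebraically closed
-/

set_option autoImplicit false

namespace Pool.Agent.Results.MP_097535_lc.Podewski

open FirstOrder

universe u

/-- **Podewski's conjecture in characteristic zero.** Let `K` be a field of characteristic zero
(hence infinite) which is minimal: every subset of `K` which is defined in `K` by a first order
formula in one free variable of the language of rings, with parameters from `K`, is finite or
cofinite. Then `K` is algebraically closed. -/
theorem result (K : Type u) [Field K] [CharZero K]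
    (hK : letI : FirstOrder.Ring.CompatibleRing K := FirstOrder.Ring.compatibleRingOfRing K
      ∀ A : Set K, Set.Definable₁ (Set.univ : Set K) Language.ring A → A.Finite ∨ Aᶜ.Finite) :
    IsAlgClosed K :=
  Lib.MP_097535_lc.FULL.isAlgClosed_of_isMinimalField ⟨inferInstance, hK⟩

end Pool.Agent.Results.MP_097535_lc.Podewski
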